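import Pool.Agent.L0h20.TA.Main

/-!
# Residue classes modulo powers of 2
-/

set_option autoImplicit false

open Filter Topology MeasureTheory PowerSeries

namespace Pool.Agent.L0h20.TA

open Pool.Agent.L0h63.MP (cntk err final pred)
open Pool.Agent.L0h63.MP.Tree (sec coeff_sec sec_pow)
open Pool.Agent.TH693.PP (P)

theorem exists_shift {F : (ZMod 2)⟦X⟧} (hF : F ≠ 0) : ∃ (m : ℕ) (H : (ZMod 2)⟦X⟧), F = X ^ m * H ∧ coeff 0 H ≠ 0 := by
  classical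
  have hex : ∃ n, coeff n F ≠ 0 := by
    by_contra h
    push Not at h
    exact hF (PowerSeries.ext fun n => by rw [h n, map_zero])
  have hdvd : (X : (ZMod 2)⟦X⟧) ^ Nat.find hex ∣ F :=
    X_pow_dvd_iff.2 fun n hn => by
      have := Nat.find_min hex hn
      push Not at this
      exact this
  obtain ⟨H, hH⟩ := hdvd
  refine ⟨Nat.find hex, H, hH, ?_⟩
  have h1 := Nat.find_spec hex
  have h2 : coeff (Nat.find hex) F = coeff 0 H := by
    refine (congrArg (coeff (Nat.find hex)) hH).trans ?_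
    have := coeff_X_pow_mul H (Nat.find hex) 0
    rwa [zero_add] at this
  rwa [h2] at h1

theorem shift_cnt (H : (ZMod 2)⟦X⟧) (κ : ZMod 2) (m x T : ℕ) :
    cntk H κ (x - m) T ≤ cntk (X ^ m * H) κ x T := by
  unfold cntk
  refine Finset.card_le_card_of_injOn (fun n => n + m) ?_ (fun a _ b _ h => by simpa using h)
  intro n hn
  simp only [Finset.coe_filter, Finset.mem_range, Set.mem_ofPred_eq] at hn ⊢
  refine ⟨by omega, ?_⟩
  rw [mul_assoc, coeff_X_pow_mul]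
  exact hn.2

theorem shift_err (H : (ZMod 2)⟦X⟧) (g : ℕ → ZMod 2) (m x T : ℕ) :
    err H (fun n => g (n + m)) (x - m) T ≤ err (X ^ m * H) g x T := by
  unfold err
  refine Finset.card_le_card_of_injOn (fun n => n + m) ?_ (fun a _ b _ h => by simpa using h)
  intro n hn
  simp only [Finset.coe_filter, Finset.mem_range, Set.mem_ofPred_eq] at hn ⊢
  refine ⟨by omega, ?_⟩
  rw [mul_assoc, coeff_X_pow_mul]
  exact hn.2

theorem cntk_mono (F : (ZMod 2)⟦X⟧) (κ : ZMod 2) {x y : ℕ} (h : x ≤ y) (T : ℕ) : cntk F κ x T ≤ cntk F κ y T :=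
  Finset.card_le_card (Finset.filter_subset_filter _ (Finset.range_mono h))

theorem err_mono (F : (ZMod 2)⟦X⟧) (g : ℕ → ZMod 2) {x y : ℕ} (h : x ≤ y) (T : ℕ) : err F g x T ≤ err F g y T :=
  Finset.card_le_card (Finset.filter_subset_filter _ (Finset.range_mono h))

theorem two_pow_sub {m k : ℕ} (h : m + 1 ≤ k) : 2 ^ (k - 1) ≤ 2 ^ k - m := by
  have h1 : 2 ^ k = 2 ^ (k - 1) + 2 ^ (k - 1) := by
    have : k = (k - 1) + 1 := by omega
    conv_lhs => rw [this, pow_succ]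
    ring
  have h2 : m < 2 ^ m := Nat.lt_two_pow_self
  have h3 : 2 ^ m ≤ 2 ^ (k - 1) := Nat.pow_le_pow_right (by norm_num) (by omega)
  omega

theorem small_k (d : ℕ → ℕ → ℕ) {β ρ : ℝ} (hρ : 0 ≤ ρ) {k K : ℕ} (h : k ≤ K) :
    ((bad d β k).card : ℝ) ≤ 2 ^ K * 2 ^ (ρ * k) := by
  have h1 : (bad d β k).card ≤ 2 ^ K := by
    refine (Finset.card_filter_le _ _).trans ?_
    rw [Finset.card_range]
    exact Nat.pow_le_pow_right (by norm_num) h
  have h2 : ((bad d β k).card : ℝ) ≤ 2 ^ K := by exact_mod_cast h1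
  have h3 : (1 : ℝ) ≤ 2 ^ (ρ * k) := Real.one_le_rpow (by norm_num) (by positivity)
  nlinarith [pow_pos two_pos' K]

theorem half_min (k : ℕ) : min (2 ^ (k - 1)) (2 ^ k) = 2 ^ (k - 1) :=
  min_eq_left (Nat.pow_le_pow_right (by norm_num) (Nat.sub_le _ _))

theorem bad_cnt' {ε : ℝ} (hε : 0 < ε) {β : ℝ} (hβ : 0 ≤ β) (F : (ZMod 2)⟦X⟧) (hF : F ≠ 0) (κ : ZMod 2) :
    ∃ C : ℝ, ∀ k : ℕ, ((bad (cntk F κ) β k).card : ℝ) ≤ C * 2 ^ ((β + ε) * k) := by
  obtain ⟨C, hC, h⟩ := final ε hε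
  obtain ⟨m, H, hFH, hH⟩ := exists_shift hF
  refine ⟨C * 2 ^ (β + 1 - ε) + 2 ^ (m + 1), fun k => ?_⟩
  rcases le_or_gt k (m + 1) with hk | hk
  · refine (small_k _ (by linarith) hk).trans (mul_le_mul_of_nonneg_right ?_ (Real.rpow_nonneg two_pos'.le _))
    have : 0 ≤ C * 2 ^ (β + 1 - ε) := by positivity
    linarith
  have h1 := h H hH κ 0 (2 ^ (k - 1)) (2 ^ k) (2 ^ β * 2 ^ (β * k)) Nat.one_le_two_pow Nat.one_le_two_pow (one_le_y hβ k)
  rw [zero_add, ← Finset.range_eq_Ico, half_min, pow_rpow'] at h1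
  have hsub : bad (cntk F κ) β k ⊆ (Finset.range (2 ^ k)).filter
      fun t => (cntk H κ (2 ^ (k - 1)) t : ℝ) ≤ 2 ^ β * 2 ^ (β * k) := by
    intro T hT
    unfold bad at hT
    rw [Finset.mem_filter] at hT ⊢
    refine ⟨hT.1, le_trans ?_ hT.2⟩
    have h2 := (cntk_mono H κ (two_pow_sub hk.le) T).trans (shift_cnt H κ m (2 ^ k) T)
    rw [← hFH] at h2
    exact_mod_cast h2
  refine ((Nat.cast_le.2 (Finset.card_le_card hsub)).trans h1).trans ?_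
  have h3 : (((2 ^ k : ℕ) : ℝ)) = 2 ^ ((1 : ℝ) * k) := by
    rw [← pow_rpow', Real.rpow_one]
  have h4 : ((k - 1 : ℕ) : ℝ) = k - 1 := by
    rw [Nat.cast_sub (by omega), Nat.cast_one]
  rw [h3, div_eq_mul_inv, ← Real.rpow_neg two_pos'.le, h4]
  have e : ∀ a b c : ℝ, C * ((2 : ℝ) ^ β * 2 ^ a) * 2 ^ b * 2 ^ c = C * (2 ^ (β + a + b + c)) := by
    intro a b c
    rw [Real.rpow_add two_pos', Real.rpow_add two_pos', Real.rpow_add two_pos']
    ring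
  rw [e, show β + β * k + 1 * (k : ℝ) + -((1 - ε) * ((k : ℝ) - 1)) = (β + 1 - ε) + (β + ε) * k by ring,
    Real.rpow_add two_pos', ← mul_assoc]
  refine mul_le_mul_of_nonneg_right ?_ (by positivity)
  have : (0 : ℝ) ≤ 2 ^ (m + 1) := by positivity
  linarith

theorem bad_er' {ε : ℝ} (hε : 0 < ε) {β : ℝ} (hβ : 0 ≤ β) (F : (ZMod 2)⟦X⟧) (hF : F ≠ 0) (g : ℕ → ZMod 2) :
    ∃ C : ℝ, ∀ k : ℕ, ((bad (err F g) β k).card : ℝ) ≤ C * 2 ^ (((1 + β + ε) / 2) * k) := by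
  obtain ⟨C, hC, h⟩ := pred ε hε
  obtain ⟨m, H, hFH, hH⟩ := exists_shift hF
  refine ⟨C * 2 ^ ((β + 1 - ε) / 2) + 2 ^ (m + 1), fun k => ?_⟩
  rcases le_or_gt k (m + 1) with hk | hk
  · refine (small_k _ (by linarith) hk).trans (mul_le_mul_of_nonneg_right ?_ (Real.rpow_nonneg two_pos'.le _))
    have : 0 ≤ C * 2 ^ ((β + 1 - ε) / 2) := by positivity
    linarith
  have h1 := h H hH (fun n => g (n + m)) 0 (2 ^ (k - 1)) (2 ^ k) (2 ^ β * 2 ^ (β * k)) Nat.one_le_two_pow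
    Nat.one_le_two_pow (one_le_y hβ k)
  rw [zero_add, ← Finset.range_eq_Ico, half_min, pow_rpow'] at h1
  have hsub : bad (err F g) β k ⊆ (Finset.range (2 ^ k)).filter
      fun t => (err H (fun n => g (n + m)) (2 ^ (k - 1)) t : ℝ) ≤ 2 ^ β * 2 ^ (β * k) := by
    intro T hT
    unfold bad at hT
    rw [Finset.mem_filter] at hT ⊢
    refine ⟨hT.1, le_trans ?_ hT.2⟩
    have h2 := (err_mono H (fun n => g (n + m)) (two_pow_sub hk.le) T).trans (shift_err H g m (2 ^ k) T)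
    rw [← hFH] at h2
    exact_mod_cast h2
  refine ((Nat.cast_le.2 (Finset.card_le_card hsub)).trans h1).trans ?_
  have h3 : (((2 ^ k : ℕ) : ℝ)) = 2 ^ ((1 : ℝ) * k) := by
    rw [← pow_rpow', Real.rpow_one]
  have h4 : ((k - 1 : ℕ) : ℝ) = k - 1 := by
    rw [Nat.cast_sub (by omega), Nat.cast_one]
  rw [h3, div_eq_mul_inv, ← Real.rpow_neg two_pos'.le, h4, ← Real.rpow_add two_pos', ← Real.rpow_add two_pos',
    Real.sqrt_eq_rpow, ← Real.rpow_mul two_pos'.le, mul_assoc, ← Real.rpow_add two_pos']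
  rw [show 1 * (k : ℝ) + (β + β * k + -((1 - ε) * ((k : ℝ) - 1))) * (1 / 2) =
    (β + 1 - ε) / 2 + (1 + β + ε) / 2 * k by ring, Real.rpow_add two_pos', ← mul_assoc]
  refine mul_le_mul_of_nonneg_right ?_ (by positivity)
  have : (0 : ℝ) ≤ 2 ^ (m + 1) := by positivity
  linarith

/-! ### The classes -/

/-- the part of `P ^ T F` in the class `r` modulo `2 ^ j` -/
noncomputable def gs (F : (ZMod 2)⟦X⟧) (j r T : ℕ) : (ZMod 2)⟦X⟧ := sec (2 ^ j) r (P ^ (T % 2 ^ j) * F)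

open scoped Classical in
/-- the bad residues -/
noncomputable def clsB (d : (ZMod 2)⟦X⟧ → ℕ → ℕ → ℕ) (β : ℝ) (F : (ZMod 2)⟦X⟧) (j r K : ℕ) : Finset ℕ :=
  (Finset.range (2 ^ K)).filter fun T => j ≤ K ∧ gs F j r T ≠ 0 ∧
    T / 2 ^ j ∈ bad (d (gs F j r T)) β (K - j)

theorem clsB_card (d : (ZMod 2)⟦X⟧ → ℕ → ℕ → ℕ) {β ρ : ℝ} (hρ : 0 ≤ ρ)
    (hbad : ∀ G, G ≠ 0 → ∃ C : ℝ, ∀ k : ℕ, ((bad (d G) β k).card : ℝ) ≤ C * 2 ^ (ρ * k))
    (F : (ZMod 2)⟦X⟧) (j r : ℕ) : ∃ C : ℝ, ∀ K : ℕ, ((clsB d β F j r K).card : ℝ) ≤ C * 2 ^ (ρ * K) := by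
  classical
  have h1 : ∀ u : ℕ, ∃ C : ℝ, 0 ≤ C ∧ (gs F j r u ≠ 0 → ∀ k : ℕ,
      ((bad (d (gs F j r u)) β k).card : ℝ) ≤ C * 2 ^ (ρ * k)) := by
    intro u
    by_cases h0 : gs F j r u ≠ 0
    · obtain ⟨C, hC⟩ := hbad _ h0
      refine ⟨|C|, abs_nonneg _, fun _ k => (hC k).trans ?_⟩
      exact mul_le_mul_of_nonneg_right (le_abs_self C) (by positivity)
    · exact ⟨0, le_rfl, fun h => absurd h h0⟩
  choose C hC0 hC using h1
  refine ⟨∑ u ∈ Finset.range (2 ^ j), C u, fun K => ?_⟩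
  rcases lt_or_ge K j with hK | hK
  · have : clsB d β F j r K = ∅ := by
      unfold clsB
      rw [Finset.filter_eq_empty_iff]
      intro T _ hT
      omega
    rw [this, Finset.card_empty, Nat.cast_zero]
    have := Finset.sum_nonneg fun u (_ : u ∈ Finset.range (2 ^ j)) => hC0 u
    positivity
  have hsub : clsB d β F j r K ⊆ (Finset.range (2 ^ j)).biUnion fun u =>
      if gs F j r u ≠ 0 then (bad (d (gs F j r u)) β (K - j)).image (fun T' => 2 ^ j * T' + u) else ∅ := by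
    intro T hT
    unfold clsB at hT
    rw [Finset.mem_filter] at hT
    obtain ⟨-, -, h2, h3⟩ := hT
    have hu : gs F j r (T % 2 ^ j) = gs F j r T := by
      unfold gs
      rw [Nat.mod_mod]
    rw [Finset.mem_biUnion]
    refine ⟨T % 2 ^ j, Finset.mem_range.2 (Nat.mod_lt _ (by positivity)), ?_⟩
    rw [hu, if_pos h2, Finset.mem_image]
    exact ⟨T / 2 ^ j, h3, Nat.div_add_mod T (2 ^ j)⟩
  have h4 : ((clsB d β F j r K).card : ℝ) ≤ ∑ u ∈ Finset.range (2 ^ j), C u * 2 ^ (ρ * K) := by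
    have h5 := (Finset.card_le_card hsub).trans Finset.card_biUnion_le
    refine (Nat.cast_le.2 h5).trans ?_
    push_cast
    refine Finset.sum_le_sum fun u _ => ?_
    split_ifs with h0
    · refine (Nat.cast_le.2 Finset.card_image_le).trans ((hC u h0 (K - j)).trans ?_)
      refine mul_le_mul_of_nonneg_left (Real.rpow_le_rpow_of_exponent_le (by norm_num) ?_) (hC0 u)
      refine mul_le_mul_of_nonneg_left ?_ hρ
      exact_mod_cast Nat.sub_le _ _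
    · rw [Finset.card_empty, Nat.cast_zero]
      have := hC0 u
      positivity
  rw [← Finset.sum_mul] at h4
  exact h4

theorem coeff_cls (F : (ZMod 2)⟦X⟧) {j r : ℕ} (hr : r < 2 ^ j) (T n : ℕ) :
    coeff (2 ^ j * n + r) (F * P ^ T) = coeff n (gs F j r T * P ^ (T / 2 ^ j)) := by
  have h1 := sec_pow j r hr P F (T % 2 ^ j) (T / 2 ^ j)
  rw [Nat.mod_add_div] at h1
  rw [mul_comm F, ← coeff_sec, h1, mul_comm]
  rfl

theorem gs_appr (F : (ZMod 2)⟦X⟧) (t : ℤ_[2]) (j r k : ℕ) : gs F j r (t.appr (k + j)) = gs F j r (t.appr j) := by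
  unfold gs
  have h1 : t.appr (k + j) ≡ t.appr j [MOD 2 ^ j] :=
    modEq_of_dvd (t := t) ((pow_dvd_pow _ (Nat.le_add_left _ _)).trans (dvd_appr t (k + j))) (dvd_appr t j)
  rw [show t.appr (k + j) % 2 ^ j = t.appr j % 2 ^ j from h1]

theorem cf_cls (F : (ZMod 2)⟦X⟧) {j r : ℕ} (hr : r < 2 ^ j) (t : ℤ_[2]) {k n : ℕ} (hn : n < 2 ^ k) :
    cf F t (2 ^ j * n + r) = coeff n (gs F j r (t.appr j) * P ^ (t.appr (k + j) / 2 ^ j)) := by
  have hlt : 2 ^ j * n + r < 2 ^ (k + j) := by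
    have h1 : 2 ^ j * (n + 1) ≤ 2 ^ j * 2 ^ k := Nat.mul_le_mul_left _ hn
    have h2 : 2 ^ (k + j) = 2 ^ j * 2 ^ k := by rw [pow_add, mul_comm]
    have h3 : 2 ^ j * (n + 1) = 2 ^ j * n + 2 ^ j := by ring
    omega
  rw [cf_eq F (dvd_appr t (k + j)) hlt, coeff_cls F hr, gs_appr]

theorem gs_ne_zero (F : (ZMod 2)⟦X⟧) {j r : ℕ} (hr : r < 2 ^ j) (t : ℤ_[2]) {n : ℕ} (h : cf F t (2 ^ j * n + r) ≠ 0) :
    gs F j r (t.appr j) ≠ 0 := by
  intro h0
  apply h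
  rw [cf_cls F hr t (k := n) Nat.lt_two_pow_self, h0, zero_mul, map_zero]

/-- a coefficient in the class is odd and there are few -/
theorem cls_sub (d : (ZMod 2)⟦X⟧ → ℕ → ℕ → ℕ) (c : ℤ_[2] → ℕ → ℕ) (F : (ZMod 2)⟦X⟧) {j r : ℕ} (hr : r < 2 ^ j)
    (hmono : ∀ t, Monotone (c t))
    (hcd : ∀ t k, c t (2 ^ k) = d (gs F j r (t.appr j)) (2 ^ k) (t.appr (k + j) / 2 ^ j)) {β : ℝ} (hβ : 0 ≤ β) :
    {t | (∃ n, cf F t (2 ^ j * n + r) ≠ 0) ∧ Few c β t} ⊆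
      {t : ℤ_[2] | ∃ᶠ K in atTop, t.appr K ∈ clsB d β F j r K} := by
  rintro t ⟨⟨n, hn⟩, ht⟩
  show ∃ᶠ K in atTop, t.appr K ∈ clsB d β F j r K
  rw [Filter.frequently_atTop]
  intro k₀
  obtain ⟨x, hx, hc⟩ := ht (2 ^ k₀)
  have hx0 : x ≠ 0 := by
    have : 0 < 2 ^ k₀ := by positivity
    omega
  have hk : k₀ ≤ Nat.log 2 x := Nat.le_log_of_pow_le one_lt_two hx
  have h1 : (c t (2 ^ Nat.log 2 x) : ℝ) ≤ c t x := by
    exact_mod_cast hmono t (Nat.pow_log_le_self 2 hx0)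
  have h2 : (x : ℝ) ≤ 2 ^ (Nat.log 2 x + 1) := by
    exact_mod_cast (Nat.lt_pow_succ_log_self one_lt_two x).le
  refine ⟨Nat.log 2 x + j, by omega, ?_⟩
  classical
  unfold clsB
  rw [Finset.mem_filter, Finset.mem_range]
  refine ⟨PadicInt.appr_lt _ _, Nat.le_add_left _ _, ?_, ?_⟩
  · rw [gs_appr]
    exact gs_ne_zero F hr t hn
  · rw [gs_appr, Nat.add_sub_cancel]
    unfold bad
    rw [Finset.mem_filter, Finset.mem_range]
    refine ⟨?_, ?_⟩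
    · rw [Nat.div_lt_iff_lt_mul (by positivity), ← pow_add]
      exact PadicInt.appr_lt _ _
    · rw [← hcd]
      refine (h1.trans hc).trans ((Real.rpow_le_rpow (Nat.cast_nonneg _) h2 hβ).trans (le_of_eq ?_))
      rw [← Real.rpow_natCast, ← Real.rpow_mul two_pos'.le, ← Real.rpow_add two_pos']
      congr 1
      push_cast
      ring

end Pool.Agent.L0h20.TA
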