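import Mathlib
import Pool.Agent.R942.AX.Lim

/-!
# Residue classes of 2-adic integers: dimension and Frostman measures
-/

set_option autoImplicit false

open Filter Topology MeasureTheory

namespace Pool.Agent.L0h20.TA

theorem two_pos' : (0 : ℝ) < 2 := by norm_num

/-- the elements with a given residue modulo `2 ^ k` -/
def cyl (k T : ℕ) : Set ℤ_[2] := {t | t.appr k = T}

theorem cyl_dist {k T : ℕ} {t t' : ℤ_[2]} (h : t ∈ cyl k T) (h' : t' ∈ cyl k T) :
    dist t t' ≤ (2 : ℝ) ^ (-(k : ℤ)) := by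
  have h1 := PadicInt.appr_spec k t
  have h2 := PadicInt.appr_spec k t'
  have h3 : t - t' ∈ Ideal.span {((2 : ℕ) : ℤ_[2]) ^ k} := by
    have e : t - t' = (t - (t.appr k : ℤ_[2])) - (t' - (t'.appr k : ℤ_[2])) := by
      rw [show t.appr k = T from h, show t'.appr k = T from h']
      ring
    rw [e]
    exact Ideal.sub_mem _ h1 h2
  rw [dist_eq_norm]
  have := (PadicInt.norm_le_pow_iff_mem_span_pow (t - t') k).2 h3
  simpa using this

theorem cyl_ediam (k T : ℕ) : Metric.ediam (cyl k T) ≤ ENNReal.ofReal ((2 : ℝ) ^ (-(k : ℤ))) := by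
  refine Metric.ediam_le fun t ht t' ht' => ?_
  rw [edist_dist]
  exact ENNReal.ofReal_le_ofReal (cyl_dist ht ht')

theorem dim_limsup (B : ℕ → Finset ℕ) {C r s : ℝ} (hs : 0 < s) (hrs : r < s)
    (h : ∀ k, ((B k).card : ℝ) ≤ C * 2 ^ (r * k)) :
    dimH {t : ℤ_[2] | ∃ᶠ k in atTop, t.appr k ∈ B k} ≤ ENNReal.ofReal s := by
  have hC : 0 ≤ C := by
    have := h 0
    simp only [CharP.cast_eq_zero, mul_zero, Real.rpow_zero, mul_one] at this
    exact (Nat.cast_nonneg _).trans this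
  have hsub : {t : ℤ_[2] | ∃ᶠ k in atTop, t.appr k ∈ B k} ⊆
      {t | {i : ℕ × ℕ | t ∈ (if i.2 ∈ B i.1 then cyl i.1 i.2 else ∅)}.Infinite} := by
    intro t ht
    have h1 : {k | t.appr k ∈ B k}.Infinite := Nat.frequently_atTop_iff_infinite.1 ht
    have h2 : ((fun k => (k, t.appr k)) '' {k | t.appr k ∈ B k}).Infinite :=
      h1.image (fun a _ b _ hab => (Prod.mk.inj hab).1)
    refine h2.mono ?_
    rintro _ ⟨k, hk, rfl⟩
    simp only [Set.mem_setOf_eq] at hk ⊢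
    rw [if_pos hk]
    rfl
  refine (dimH_mono hsub).trans (Pool.Agent.R942.AX.dimH_limsup _ hs ?_)
  have hq : ∀ k : ℕ, (∑' T : ℕ, Metric.ediam (if T ∈ B k then cyl k T else ∅) ^ s) ≤
      ENNReal.ofReal (C * (2 ^ (r - s)) ^ k) := by
    intro k
    have h1 : (∑' T : ℕ, Metric.ediam (if T ∈ B k then cyl k T else ∅) ^ s) =
        ∑ T ∈ B k, Metric.ediam (if T ∈ B k then cyl k T else ∅) ^ s := by
      refine tsum_eq_sum fun T hT => ?_
      rw [if_neg hT, Metric.ediam_empty, ENNReal.zero_rpow_of_pos hs]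
    rw [h1]
    have h2 : ∀ T ∈ B k, Metric.ediam (if T ∈ B k then cyl k T else ∅) ^ s ≤
        ENNReal.ofReal (((2 : ℝ) ^ (-(k : ℤ))) ^ s) := by
      intro T hT
      rw [if_pos hT, ← ENNReal.ofReal_rpow_of_pos (by positivity)]
      exact ENNReal.rpow_le_rpow (cyl_ediam k T) hs.le
    refine (Finset.sum_le_sum h2).trans ?_
    rw [Finset.sum_const, nsmul_eq_mul, ← ENNReal.ofReal_natCast, ← ENNReal.ofReal_mul (Nat.cast_nonneg _)]
    refine ENNReal.ofReal_le_ofReal ?_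
    have h3 : ((2 : ℝ) ^ (-(k : ℤ))) ^ s = 2 ^ (-s * k) := by
      rw [← Real.rpow_intCast, ← Real.rpow_mul two_pos'.le]
      congr 1
      push_cast
      ring
    have h4 : ((2 : ℝ) ^ (r - s)) ^ k = 2 ^ (r * k) * 2 ^ (-s * k) := by
      rw [← Real.rpow_natCast, ← Real.rpow_mul two_pos'.le, ← Real.rpow_add two_pos']
      congr 1
      ring
    rw [h3, h4, ← mul_assoc]
    exact mul_le_mul_of_nonneg_right (h k) (by positivity)
  rw [ENNReal.tsum_prod']
  have hq1 : (2 : ℝ) ^ (r - s) < 1 := Real.rpow_lt_one_of_one_lt_of_neg (by norm_num) (by linarith)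
  have hsum : Summable fun k : ℕ => C * ((2 : ℝ) ^ (r - s)) ^ k :=
    (summable_geometric_of_lt_one (by positivity) hq1).mul_left _
  refine ne_top_of_le_ne_top ?_ (ENNReal.tsum_le_tsum hq)
  exact hsum.tsum_ofReal_ne_top

theorem ae_eventually [MeasurableSpace ℤ_[2]] [BorelSpace ℤ_[2]] (μ : Measure ℤ_[2]) (B : ℕ → Finset ℕ)
    {C r K δ : ℝ} (hrs : r < δ) (h : ∀ k, ((B k).card : ℝ) ≤ C * 2 ^ (r * k))
    (hμ : ∀ (t : ℤ_[2]) (k : ℕ), μ (Metric.closedBall t ((2 : ℝ) ^ (-(k : ℤ)))) ≤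
      ENNReal.ofReal (K * 2 ^ (-(δ * k)))) :
    ∀ᵐ t ∂μ, ∀ᶠ k in atTop, t.appr k ∉ B k := by
  have hC : 0 ≤ C := by
    have := h 0
    simp only [CharP.cast_eq_zero, mul_zero, Real.rpow_zero, mul_one] at this
    exact (Nat.cast_nonneg _).trans this
  have hcyl : ∀ k T, μ (cyl k T) ≤ ENNReal.ofReal (|K| * 2 ^ (-(δ * k))) := by
    intro k T
    rcases (cyl k T).eq_empty_or_nonempty with h0 | ⟨t, ht⟩
    · rw [h0, measure_empty]
      exact zero_le
    · refine (measure_mono fun t' ht' => ?_).trans ((hμ t k).trans (ENNReal.ofReal_le_ofReal ?_))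
      · rw [Metric.mem_closedBall, dist_comm]
        exact cyl_dist ht ht'
      · exact mul_le_mul_of_nonneg_right (le_abs_self K) (by positivity)
  have hle : ∀ k, μ {t | t.appr k ∈ B k} ≤ ENNReal.ofReal (C * |K| * (2 ^ (r - δ)) ^ k) := by
    intro k
    have h1 : {t : ℤ_[2] | t.appr k ∈ B k} ⊆ ⋃ T ∈ B k, cyl k T := by
      intro t ht
      exact Set.mem_iUnion₂.2 ⟨t.appr k, ht, rfl⟩
    refine (measure_mono h1).trans ((measure_biUnion_finset_le _ _).trans ?_)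
    refine (Finset.sum_le_sum fun T _ => hcyl k T).trans ?_
    rw [Finset.sum_const, nsmul_eq_mul, ← ENNReal.ofReal_natCast, ← ENNReal.ofReal_mul (Nat.cast_nonneg _)]
    refine ENNReal.ofReal_le_ofReal ?_
    have h4 : ((2 : ℝ) ^ (r - δ)) ^ k = 2 ^ (r * k) * 2 ^ (-(δ * k)) := by
      rw [← Real.rpow_natCast, ← Real.rpow_mul two_pos'.le, ← Real.rpow_add two_pos']
      congr 1
      ring
    rw [h4]
    calc ((B k).card : ℝ) * (|K| * 2 ^ (-(δ * k))) ≤ (C * 2 ^ (r * k)) * (|K| * 2 ^ (-(δ * k))) :=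
          mul_le_mul_of_nonneg_right (h k) (by positivity)
      _ = C * |K| * (2 ^ (r * k) * 2 ^ (-(δ * k))) := by ring
  have hq1 : (2 : ℝ) ^ (r - δ) < 1 := Real.rpow_lt_one_of_one_lt_of_neg (by norm_num) (by linarith)
  have hsum : Summable fun k : ℕ => C * |K| * ((2 : ℝ) ^ (r - δ)) ^ k :=
    (summable_geometric_of_lt_one (by positivity) hq1).mul_left _
  have hne : ∑' k, μ {t : ℤ_[2] | t.appr k ∈ B k} ≠ ⊤ :=
    ne_top_of_le_ne_top hsum.tsum_ofReal_ne_top (ENNReal.tsum_le_tsum hle)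
  exact ae_eventually_notMem hne

end Pool.Agent.L0h20.TA
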