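import Pool.Agent.L0h63.MP.All
import Pool.Agent.L0h63.MP.Pred3
import Pool.Agent.L0h20.TA.Dim

/-!
# The coefficients of `F / f_1 ^ t` modulo 2 for 2-adic `t`
-/

set_option autoImplicit false

open Filter Topology MeasureTheory PowerSeries

namespace Pool.Agent.L0h20.TA

open Pool.Agent.L0h63.MP (cntk err final pred)
open Pool.Agent.TH693.PP (P)

theorem coeff_P_zero : coeff 0 P = 1 := by
  unfold P
  rw [coeff_mk]
  simp

theorem dvd_pow_sub (k m : ℕ) : (X : (ZMod 2)⟦X⟧) ^ 2 ^ k ∣ (P ^ 2 ^ k) ^ m - 1 := by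
  have h1 : (X : (ZMod 2)⟦X⟧) ∣ P - 1 := by
    rw [X_dvd_iff, map_sub, ← coeff_zero_eq_constantCoeff_apply, coeff_P_zero]
    simp
  have h2 : (P : (ZMod 2)⟦X⟧) ^ 2 ^ k - 1 = (P - 1) ^ 2 ^ k := by
    have : CharP (ZMod 2)⟦X⟧ 2 :=
      CharTwo.of_one_ne_zero_of_two_eq_zero one_ne_zero Pool.Agent.TH693.PP.two_zero
    have := sub_pow_char_pow (p := 2) (n := k) (P : (ZMod 2)⟦X⟧) 1
    rw [one_pow] at this
    exact this.symm
  have h3 : (P : (ZMod 2)⟦X⟧) ^ 2 ^ k - 1 ∣ (P ^ 2 ^ k) ^ m - 1 := by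
    have := sub_dvd_pow_sub_pow (P ^ 2 ^ k : (ZMod 2)⟦X⟧) 1 m
    rwa [one_pow] at this
  exact (h2 ▸ pow_dvd_pow_of_dvd h1 (2 ^ k)).trans h3

theorem coeff_congr (F : (ZMod 2)⟦X⟧) {k T T' n : ℕ} (h : T ≡ T' [MOD 2 ^ k]) (hn : n < 2 ^ k) :
    coeff n (F * P ^ T) = coeff n (F * P ^ T') := by
  wlog hle : T ≤ T' generalizing T T'
  · exact (this h.symm (le_of_not_ge hle)).symm
  obtain ⟨m, hm⟩ := (Nat.modEq_iff_dvd' hle).1 h
  have e : T' = T + 2 ^ k * m := by omega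
  have h1 : F * P ^ T' - F * P ^ T = F * P ^ T * ((P ^ 2 ^ k) ^ m - 1) := by
    rw [e, pow_add, pow_mul]
    ring
  have h2 : (X : (ZMod 2)⟦X⟧) ^ 2 ^ k ∣ F * P ^ T' - F * P ^ T := by
    rw [h1]
    exact (dvd_pow_sub k m).mul_left _
  have h3 := X_pow_dvd_iff.1 h2 n hn
  rw [map_sub, sub_eq_zero] at h3
  exact h3.symm

/-- the coefficients of the products with `1 / f_1 ^ t` for a 2-adic integer `t` -/
noncomputable def cf (F : (ZMod 2)⟦X⟧) (t : ℤ_[2]) (n : ℕ) : ZMod 2 := coeff n (F * P ^ t.appr (n + 1))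

theorem modEq_of_dvd {t : ℤ_[2]} {T T' m : ℕ} (h : (2 : ℤ_[2]) ^ m ∣ t - T) (h' : (2 : ℤ_[2]) ^ m ∣ t - T') :
    T ≡ T' [MOD 2 ^ m] := by
  have h1 : (2 : ℤ_[2]) ^ m ∣ (((T' : ℤ) - T : ℤ) : ℤ_[2]) := by
    have e : (((T' : ℤ) - T : ℤ) : ℤ_[2]) = (t - T) - (t - T') := by
      push_cast
      ring
    rw [e]
    exact dvd_sub h h'
  have h2 := (PadicInt.pow_p_dvd_int_iff (p := 2) m ((T' : ℤ) - T)).1 (by simpa using h1)
  exact (Nat.modEq_iff_dvd.2 (by exact_mod_cast h2))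

theorem dvd_appr (t : ℤ_[2]) (k : ℕ) : (2 : ℤ_[2]) ^ k ∣ t - (t.appr k : ℤ_[2]) := by
  have := PadicInt.appr_spec k t
  rw [Ideal.mem_span_singleton] at this
  simpa using this

theorem cf_eq (F : (ZMod 2)⟦X⟧) {t : ℤ_[2]} {T k n : ℕ} (h : (2 : ℤ_[2]) ^ k ∣ t - T) (hn : n < 2 ^ k) :
    cf F t n = coeff n (F * P ^ T) := by
  unfold cf
  refine coeff_congr F (k := min (n + 1) k) (modEq_of_dvd (t := t) ?_ ?_) ?_
  · exact (pow_dvd_pow _ (min_le_left _ _)).trans (dvd_appr t (n + 1))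
  · exact (pow_dvd_pow _ (min_le_right _ _)).trans h
  · rcases min_choice (n + 1) k with h0 | h0
    · rw [h0]
      exact (Nat.lt_succ_self n).trans Nat.lt_two_pow_self
    · rw [h0]
      exact hn

/-- the number of the coefficients with a given value -/
noncomputable def cnt (F : (ZMod 2)⟦X⟧) (κ : ZMod 2) (t : ℤ_[2]) (x : ℕ) : ℕ :=
  ((Finset.range x).filter fun n => cf F t n = κ).card

/-- the number of the coefficients which differ from `g` -/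
noncomputable def er (F : (ZMod 2)⟦X⟧) (g : ℕ → ZMod 2) (t : ℤ_[2]) (x : ℕ) : ℕ :=
  ((Finset.range x).filter fun n => cf F t n ≠ g n).card

theorem cnt_appr (F : (ZMod 2)⟦X⟧) (κ : ZMod 2) (t : ℤ_[2]) (k : ℕ) :
    cnt F κ t (2 ^ k) = cntk F κ (2 ^ k) (t.appr k) := by
  unfold cnt cntk
  congr 1
  refine Finset.filter_congr fun n hn => ?_
  rw [cf_eq F (dvd_appr t k) (Finset.mem_range.1 hn)]

theorem er_appr (F : (ZMod 2)⟦X⟧) (g : ℕ → ZMod 2) (t : ℤ_[2]) (k : ℕ) :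
    er F g t (2 ^ k) = err F g (2 ^ k) (t.appr k) := by
  unfold er err
  congr 1
  refine Finset.filter_congr fun n hn => ?_
  rw [cf_eq F (dvd_appr t k) (Finset.mem_range.1 hn)]

theorem cnt_mono (F : (ZMod 2)⟦X⟧) (κ : ZMod 2) (t : ℤ_[2]) : Monotone (cnt F κ t) := by
  intro x y h
  exact Finset.card_le_card (Finset.filter_subset_filter _ (Finset.range_mono h))

theorem er_mono (F : (ZMod 2)⟦X⟧) (g : ℕ → ZMod 2) (t : ℤ_[2]) : Monotone (er F g t) := by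
  intro x y h
  exact Finset.card_le_card (Finset.filter_subset_filter _ (Finset.range_mono h))

/-- from `x` to powers of two -/
theorem dyadic {c : ℤ_[2] → ℕ → ℕ} {d : ℕ → ℕ → ℕ} (hmono : ∀ t, Monotone (c t))
    (hcd : ∀ t k, c t (2 ^ k) = d (2 ^ k) (t.appr k)) {β : ℝ} (hβ : 0 ≤ β) (t : ℤ_[2])
    (h : ∀ x₀ : ℕ, ∃ x ≥ x₀, (c t x : ℝ) ≤ (x : ℝ) ^ β) :
    ∃ᶠ k : ℕ in atTop, t.appr k ∈ (Finset.range (2 ^ k)).filter
      (fun T => (d (2 ^ k) T : ℝ) ≤ 2 ^ β * 2 ^ (β * k)) := by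
  rw [Filter.frequently_atTop]
  intro k₀
  obtain ⟨x, hx, hc⟩ := h (2 ^ k₀)
  have hx0 : x ≠ 0 := by
    have : 0 < 2 ^ k₀ := by positivity
    omega
  refine ⟨Nat.log 2 x, Nat.le_log_of_pow_le one_lt_two hx, ?_⟩
  rw [Finset.mem_filter, Finset.mem_range]
  refine ⟨PadicInt.appr_lt _ _, ?_⟩
  rw [← hcd]
  have h1 : (c t (2 ^ Nat.log 2 x) : ℝ) ≤ c t x := by
    exact_mod_cast hmono t (Nat.pow_log_le_self 2 hx0)
  refine (h1.trans hc).trans ?_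
  have h2 : (x : ℝ) ≤ 2 ^ (Nat.log 2 x + 1) := by
    exact_mod_cast (Nat.lt_pow_succ_log_self one_lt_two x).le
  refine (Real.rpow_le_rpow (Nat.cast_nonneg _) h2 hβ).trans (le_of_eq ?_)
  rw [← Real.rpow_natCast, ← Real.rpow_mul two_pos'.le, ← Real.rpow_add two_pos']
  congr 1
  push_cast
  ring

end Pool.Agent.L0h20.TA
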