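import Pool.Agent.L0h20.TA.Main

/-!
# Invariant measures on the 2-adic integers
-/

set_option autoImplicit false

open Filter Topology MeasureTheory

namespace Pool.Agent.L0h20.TA

theorem haar_frostman [MeasurableSpace ℤ_[2]] [BorelSpace ℤ_[2]] (μ : Measure ℤ_[2]) [IsFiniteMeasure μ]
    [μ.IsAddLeftInvariant] : Frostman μ (μ.real Set.univ) 1 := by
  intro t k
  have hball : ∀ s : ℤ_[2], μ (Metric.closedBall s ((2 : ℝ) ^ (-(k : ℤ)))) =
      μ (Metric.closedBall 0 ((2 : ℝ) ^ (-(k : ℤ)))) := by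
    intro s
    have h1 : (fun u : ℤ_[2] => -s + u) ⁻¹' (Metric.closedBall 0 ((2 : ℝ) ^ (-(k : ℤ)))) =
        Metric.closedBall s ((2 : ℝ) ^ (-(k : ℤ))) := by
      ext u
      simp only [Set.mem_preimage, Metric.mem_closedBall, dist_eq_norm, sub_zero]
      rw [neg_add_eq_sub]
    rw [← h1, measure_preimage_add]
  have hdisj : Set.PairwiseDisjoint (↑(Finset.range (2 ^ k)) : Set ℕ)
      (fun T : ℕ => Metric.closedBall (T : ℤ_[2]) ((2 : ℝ) ^ (-(k : ℤ)))) := by
    intro T hT T' hT' hne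
    refine Set.disjoint_left.2 fun u hu hu' => hne ?_
    have hd : ∀ S : ℕ, u ∈ Metric.closedBall (S : ℤ_[2]) ((2 : ℝ) ^ (-(k : ℤ))) → (2 : ℤ_[2]) ^ k ∣ u - (S : ℤ_[2]) := by
      intro S hS
      rw [Metric.mem_closedBall, dist_eq_norm] at hS
      have := (PadicInt.norm_le_pow_iff_mem_span_pow (u - (S : ℤ_[2])) k).1 (by simpa using hS)
      rw [Ideal.mem_span_singleton] at this
      simpa using this
    have h2 := modEq_of_dvd (hd T hu) (hd T' hu')
    have h3 : T < 2 ^ k := by simpa using hT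
    have h4 : T' < 2 ^ k := by simpa using hT'
    exact Nat.ModEq.eq_of_lt_of_lt h2 h3 h4
  have hsum := measure_biUnion_finset (μ := μ) hdisj (fun T _ => Metric.isClosed_closedBall.measurableSet)
  have hle : ∑ T ∈ Finset.range (2 ^ k), μ (Metric.closedBall (T : ℤ_[2]) ((2 : ℝ) ^ (-(k : ℤ)))) ≤ μ Set.univ := by
    rw [← hsum]
    exact measure_mono (Set.subset_univ _)
  rw [Finset.sum_congr rfl (fun (T : ℕ) _ => hball (T : ℤ_[2])), Finset.sum_const, Finset.card_range, nsmul_eq_mul] at hle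
  rw [hball t]
  have hfin : μ (Metric.closedBall (0 : ℤ_[2]) ((2 : ℝ) ^ (-(k : ℤ)))) ≠ ⊤ := measure_ne_top _ _
  have h5 : (2 : ℝ) ^ k * μ.real (Metric.closedBall (0 : ℤ_[2]) ((2 : ℝ) ^ (-(k : ℤ)))) ≤ μ.real Set.univ := by
    have := ENNReal.toReal_mono (measure_ne_top μ Set.univ) hle
    rw [ENNReal.toReal_mul] at this
    simpa [Measure.real] using this
  rw [← ENNReal.ofReal_toReal hfin]
  refine ENNReal.ofReal_le_ofReal ?_
  have h6 : (2 : ℝ) ^ (-(1 * (k : ℝ))) = ((2 : ℝ) ^ k)⁻¹ := by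
    rw [one_mul, Real.rpow_neg two_pos'.le, Real.rpow_natCast]
  rw [h6, ← div_eq_mul_inv, le_div_iff₀ (by positivity), mul_comm]
  exact h5

end Pool.Agent.L0h20.TA
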