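import Pool.Agent.L0h20.TA.Coef

/-!
# Dimension of the sets of 2-adic exponents with few coefficients of one parity
-/

set_option autoImplicit false

open Filter Topology MeasureTheory PowerSeries

namespace Pool.Agent.L0h20.TA

open Pool.Agent.L0h63.MP (cntk err final pred)

/-- the bad residues -/
noncomputable def bad (d : ℕ → ℕ → ℕ) (β : ℝ) (k : ℕ) : Finset ℕ :=
  (Finset.range (2 ^ k)).filter (fun T => (d (2 ^ k) T : ℝ) ≤ 2 ^ β * 2 ^ (β * k))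

theorem one_le_y {β : ℝ} (hβ : 0 ≤ β) (k : ℕ) : 1 ≤ (2 : ℝ) ^ β * 2 ^ (β * k) := by
  rw [← Real.rpow_add two_pos']
  exact Real.one_le_rpow (by norm_num) (by positivity)

theorem pow_rpow' (k : ℕ) (a : ℝ) : (((2 ^ k : ℕ) : ℝ)) ^ a = 2 ^ (a * k) := by
  push_cast
  rw [← Real.rpow_natCast, ← Real.rpow_mul two_pos'.le, mul_comm]

theorem bad_cnt {ε : ℝ} (hε : 0 < ε) {β : ℝ} (hβ : 0 ≤ β) : ∃ C : ℝ, ∀ F : (ZMod 2)⟦X⟧, coeff 0 F ≠ 0 →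
    ∀ (κ : ZMod 2) (k : ℕ), ((bad (cntk F κ) β k).card : ℝ) ≤ C * 2 ^ ((β + ε) * k) := by
  obtain ⟨C, -, h⟩ := final ε hε
  refine ⟨C * 2 ^ β, fun F hF κ k => ?_⟩
  have h1 := h F hF κ 0 (2 ^ k) (2 ^ k) (2 ^ β * 2 ^ (β * k)) Nat.one_le_two_pow Nat.one_le_two_pow (one_le_y hβ k)
  rw [zero_add, ← Finset.range_eq_Ico, min_self, pow_rpow'] at h1
  unfold bad
  refine h1.trans (le_of_eq ?_)
  have h2 : (((2 ^ k : ℕ) : ℝ)) = 2 ^ ((1 : ℝ) * k) := by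
    rw [← pow_rpow', Real.rpow_one]
  rw [h2, div_eq_mul_inv, ← Real.rpow_neg two_pos'.le]
  have e : ∀ a b c : ℝ, C * ((2 : ℝ) ^ β * 2 ^ a) * 2 ^ b * 2 ^ c = C * 2 ^ β * 2 ^ (a + b + c) := by
    intro a b c
    rw [Real.rpow_add two_pos', Real.rpow_add two_pos']
    ring
  rw [e]
  congr 2
  ring

theorem bad_er {ε : ℝ} (hε : 0 < ε) {β : ℝ} (hβ : 0 ≤ β) : ∃ C : ℝ, ∀ F : (ZMod 2)⟦X⟧, coeff 0 F ≠ 0 →
    ∀ (g : ℕ → ZMod 2) (k : ℕ), ((bad (err F g) β k).card : ℝ) ≤ C * 2 ^ (((1 + β + ε) / 2) * k) := by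
  obtain ⟨C, -, h⟩ := pred ε hε
  refine ⟨C * 2 ^ (β / 2), fun F hF g k => ?_⟩
  have h1 := h F hF g 0 (2 ^ k) (2 ^ k) (2 ^ β * 2 ^ (β * k)) Nat.one_le_two_pow Nat.one_le_two_pow (one_le_y hβ k)
  rw [zero_add, ← Finset.range_eq_Ico, min_self, pow_rpow'] at h1
  unfold bad
  refine h1.trans (le_of_eq ?_)
  have h2 : (((2 ^ k : ℕ) : ℝ)) = 2 ^ ((1 : ℝ) * k) := by
    rw [← pow_rpow', Real.rpow_one]
  rw [h2, div_eq_mul_inv, ← Real.rpow_neg two_pos'.le, ← Real.rpow_add two_pos', ← Real.rpow_add two_pos',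
    Real.sqrt_eq_rpow, ← Real.rpow_mul two_pos'.le, mul_assoc, mul_assoc, ← Real.rpow_add two_pos',
    ← Real.rpow_add two_pos']
  congr 2
  ring

theorem le_of_forall_real {a : ENNReal} {β : ℝ} (hβ : 0 ≤ β) (h : ∀ s : ℝ, β < s → a ≤ ENNReal.ofReal s) :
    a ≤ ENNReal.ofReal β := by
  refine le_of_forall_gt_imp_ge_of_dense fun b hb => ?_
  rcases eq_or_ne b ⊤ with h0 | h0
  · rw [h0]
    exact le_top
  · have h1 : β < b.toReal := (ENNReal.ofReal_lt_iff_lt_toReal hβ h0).1 hb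
    exact (h _ h1).trans (ENNReal.ofReal_toReal h0).le

/-- few odd coefficients, or few even ones -/
def Few (c : ℤ_[2] → ℕ → ℕ) (β : ℝ) (t : ℤ_[2]) : Prop := ∀ x₀ : ℕ, ∃ x ≥ x₀, (c t x : ℝ) ≤ (x : ℝ) ^ β

theorem few_sub {c : ℤ_[2] → ℕ → ℕ} {d : ℕ → ℕ → ℕ} (hmono : ∀ t, Monotone (c t))
    (hcd : ∀ t k, c t (2 ^ k) = d (2 ^ k) (t.appr k)) {β : ℝ} (hβ : 0 ≤ β) :
    {t | Few c β t} ⊆ {t : ℤ_[2] | ∃ᶠ k in atTop, t.appr k ∈ bad d β k} :=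
  fun t ht => dyadic hmono hcd hβ t ht

theorem dim_cnt (F : (ZMod 2)⟦X⟧) (hF : coeff 0 F ≠ 0) (κ : ZMod 2) {β : ℝ} (hβ : 0 ≤ β) :
    dimH {t | Few (cnt F κ) β t} ≤ ENNReal.ofReal β := by
  refine le_of_forall_real hβ fun s hs => ?_
  obtain ⟨C, h⟩ := bad_cnt (ε := (s - β) / 2) (by linarith) hβ
  exact (dimH_mono (few_sub (cnt_mono F κ) (cnt_appr F κ) hβ)).trans
    (dim_limsup _ (by linarith) (by linarith) (h F hF κ))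

theorem dim_er (F : (ZMod 2)⟦X⟧) (hF : coeff 0 F ≠ 0) (g : ℕ → ZMod 2) {β : ℝ} (hβ : 0 ≤ β) :
    dimH {t | Few (er F g) β t} ≤ ENNReal.ofReal ((1 + β) / 2) := by
  refine le_of_forall_real (by linarith) fun s hs => ?_
  obtain ⟨C, h⟩ := bad_er (ε := s - (1 + β) / 2) (by linarith) hβ
  exact (dimH_mono (few_sub (er_mono F g) (er_appr F g) hβ)).trans
    (dim_limsup _ (by linarith) (by linarith) (h F hF g))

theorem not_few {c : ℤ_[2] → ℕ → ℕ} {β : ℝ} {t : ℤ_[2]} (h : ¬ Few c β t) :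
    ∀ᶠ x : ℕ in atTop, (x : ℝ) ^ β < c t x := by
  unfold Few at h
  push Not at h
  obtain ⟨x₀, h⟩ := h
  exact Filter.eventually_atTop.2 ⟨x₀, h⟩

/-- the measure of the ball of radius `2 ^ (-k)` is at most `K 2 ^ (- δ k)` -/
def Frostman [MeasurableSpace ℤ_[2]] (μ : Measure ℤ_[2]) (K δ : ℝ) : Prop :=
  ∀ (t : ℤ_[2]) (k : ℕ), μ (Metric.closedBall t ((2 : ℝ) ^ (-(k : ℤ)))) ≤ ENNReal.ofReal (K * 2 ^ (-(δ * k)))

theorem ae_cnt [MeasurableSpace ℤ_[2]] [BorelSpace ℤ_[2]] {μ : Measure ℤ_[2]} {K δ : ℝ} (hμ : Frostman μ K δ)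
    (F : (ZMod 2)⟦X⟧) (hF : coeff 0 F ≠ 0) (κ : ZMod 2) {β : ℝ} (hβ : 0 ≤ β) (hδ : β < δ) :
    ∀ᵐ t ∂μ, ∀ᶠ x : ℕ in atTop, (x : ℝ) ^ β < cnt F κ t x := by
  obtain ⟨C, h⟩ := bad_cnt (ε := (δ - β) / 2) (by linarith) hβ
  filter_upwards [ae_eventually μ _ (K := K) (δ := δ) (by linarith) (h F hF κ) hμ] with t ht
  refine not_few fun hf => ?_
  exact (few_sub (cnt_mono F κ) (cnt_appr F κ) hβ hf) ht

theorem ae_er [MeasurableSpace ℤ_[2]] [BorelSpace ℤ_[2]] {μ : Measure ℤ_[2]} {K δ : ℝ} (hμ : Frostman μ K δ)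
    (F : (ZMod 2)⟦X⟧) (hF : coeff 0 F ≠ 0) (g : ℕ → ZMod 2) {β : ℝ} (hβ : 0 ≤ β) (hδ : (1 + β) / 2 < δ) :
    ∀ᵐ t ∂μ, ∀ᶠ x : ℕ in atTop, (x : ℝ) ^ β < er F g t x := by
  obtain ⟨C, h⟩ := bad_er (ε := δ - (1 + β) / 2) (by linarith) hβ
  filter_upwards [ae_eventually μ _ (K := K) (δ := δ) (by linarith) (h F hF g) hμ] with t ht
  refine not_few fun hf => ?_
  exact (few_sub (er_mono F g) (er_appr F g) hβ hf) ht

end Pool.Agent.L0h20.TA
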