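import Pool.Agent.L0h20.TA.Cls
import Pool.Agent.L0h20.TA.Haar

/-!
# Dimension and measure of the exceptional 2-adic exponents, for all residue classes modulo powers of 2
-/

set_option autoImplicit false

open Filter Topology MeasureTheory PowerSeries

namespace Pool.Agent.L0h20.TA

open Pool.Agent.L0h63.MP (cntk err final pred)

/-- coefficients in a class with a given value -/
noncomputable def cc (F : (ZMod 2)⟦X⟧) (κ : ZMod 2) (j r : ℕ) (t : ℤ_[2]) (x : ℕ) : ℕ :=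
  ((Finset.range x).filter fun n => cf F t (2 ^ j * n + r) = κ).card

/-- coefficients in a class which differ from `g` -/
noncomputable def ce (F : (ZMod 2)⟦X⟧) (g : ℕ → ZMod 2) (j r : ℕ) (t : ℤ_[2]) (x : ℕ) : ℕ :=
  ((Finset.range x).filter fun n => cf F t (2 ^ j * n + r) ≠ g n).card

theorem cc_mono (F : (ZMod 2)⟦X⟧) (κ : ZMod 2) (j r : ℕ) (t : ℤ_[2]) : Monotone (cc F κ j r t) := by
  intro x y h
  exact Finset.card_le_card (Finset.filter_subset_filter _ (Finset.range_mono h))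

theorem ce_mono (F : (ZMod 2)⟦X⟧) (g : ℕ → ZMod 2) (j r : ℕ) (t : ℤ_[2]) : Monotone (ce F g j r t) := by
  intro x y h
  exact Finset.card_le_card (Finset.filter_subset_filter _ (Finset.range_mono h))

theorem cc_appr (F : (ZMod 2)⟦X⟧) (κ : ZMod 2) {j r : ℕ} (hr : r < 2 ^ j) (t : ℤ_[2]) (k : ℕ) :
    cc F κ j r t (2 ^ k) = cntk (gs F j r (t.appr j)) κ (2 ^ k) (t.appr (k + j) / 2 ^ j) := by
  unfold cc cntk
  congr 1
  refine Finset.filter_congr fun n hn => ?_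
  rw [cf_cls F hr t (Finset.mem_range.1 hn)]

theorem ce_appr (F : (ZMod 2)⟦X⟧) (g : ℕ → ZMod 2) {j r : ℕ} (hr : r < 2 ^ j) (t : ℤ_[2]) (k : ℕ) :
    ce F g j r t (2 ^ k) = err (gs F j r (t.appr j)) g (2 ^ k) (t.appr (k + j) / 2 ^ j) := by
  unfold ce err
  congr 1
  refine Finset.filter_congr fun n hn => ?_
  rw [cf_cls F hr t (Finset.mem_range.1 hn)]

theorem dim_cc (F : (ZMod 2)⟦X⟧) (κ : ZMod 2) {j r : ℕ} (hr : r < 2 ^ j) {β : ℝ} (hβ : 0 ≤ β) :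
    dimH {t | (∃ n, cf F t (2 ^ j * n + r) ≠ 0) ∧ Few (cc F κ j r) β t} ≤ ENNReal.ofReal β := by
  refine le_of_forall_real hβ fun s hs => ?_
  obtain ⟨C, h⟩ := clsB_card (fun G => cntk G κ) (β := β) (ρ := β + (s - β) / 2) (by linarith)
    (fun G hG => bad_cnt' (ε := (s - β) / 2) (by linarith) hβ G hG κ) F j r
  exact (dimH_mono (cls_sub (fun G => cntk G κ) (cc F κ j r) F hr (cc_mono F κ j r)
    (fun t k => cc_appr F κ hr t k) hβ)).trans (dim_limsup _ (by linarith) (by linarith) h)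

theorem dim_ce (F : (ZMod 2)⟦X⟧) (g : ℕ → ZMod 2) {j r : ℕ} (hr : r < 2 ^ j) {β : ℝ} (hβ : 0 ≤ β) :
    dimH {t | (∃ n, cf F t (2 ^ j * n + r) ≠ 0) ∧ Few (ce F g j r) β t} ≤ ENNReal.ofReal ((1 + β) / 2) := by
  refine le_of_forall_real (by linarith) fun s hs => ?_
  obtain ⟨C, h⟩ := clsB_card (fun G => err G g) (β := β) (ρ := (1 + β + (s - (1 + β) / 2)) / 2) (by linarith)
    (fun G hG => bad_er' (ε := s - (1 + β) / 2) (by linarith) hβ G hG g) F j r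
  exact (dimH_mono (cls_sub (fun G => err G g) (ce F g j r) F hr (ce_mono F g j r)
    (fun t k => ce_appr F g hr t k) hβ)).trans (dim_limsup _ (by linarith) (by linarith) h)

theorem ae_cc [MeasurableSpace ℤ_[2]] [BorelSpace ℤ_[2]] {μ : Measure ℤ_[2]} {K δ : ℝ} (hμ : Frostman μ K δ)
    (F : (ZMod 2)⟦X⟧) (κ : ZMod 2) {j r : ℕ} (hr : r < 2 ^ j) {β : ℝ} (hβ : 0 ≤ β) (hδ : β < δ) :
    ∀ᵐ t ∂μ, (∃ n, cf F t (2 ^ j * n + r) ≠ 0) → ∀ᶠ x : ℕ in atTop, (x : ℝ) ^ β < cc F κ j r t x := by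
  obtain ⟨C, h⟩ := clsB_card (fun G => cntk G κ) (β := β) (ρ := β + (δ - β) / 2) (by linarith)
    (fun G hG => bad_cnt' (ε := (δ - β) / 2) (by linarith) hβ G hG κ) F j r
  filter_upwards [ae_eventually μ _ (K := K) (δ := δ) (by linarith) h hμ] with t ht hn
  refine not_few fun hf => ?_
  exact (cls_sub (fun G => cntk G κ) (cc F κ j r) F hr (cc_mono F κ j r)
    (fun t k => cc_appr F κ hr t k) hβ ⟨hn, hf⟩) ht

theorem ae_ce [MeasurableSpace ℤ_[2]] [BorelSpace ℤ_[2]] {μ : Measure ℤ_[2]} {K δ : ℝ} (hμ : Frostman μ K δ)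
    (F : (ZMod 2)⟦X⟧) (g : ℕ → ZMod 2) {j r : ℕ} (hr : r < 2 ^ j) {β : ℝ} (hβ : 0 ≤ β) (hδ : (1 + β) / 2 < δ) :
    ∀ᵐ t ∂μ, (∃ n, cf F t (2 ^ j * n + r) ≠ 0) → ∀ᶠ x : ℕ in atTop, (x : ℝ) ^ β < ce F g j r t x := by
  obtain ⟨C, h⟩ := clsB_card (fun G => err G g) (β := β) (ρ := (1 + β + (δ - (1 + β) / 2)) / 2) (by linarith)
    (fun G hG => bad_er' (ε := δ - (1 + β) / 2) (by linarith) hβ G hG g) F j r
  filter_upwards [ae_eventually μ _ (K := K) (δ := δ) (by linarith) h hμ] with t ht hn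
  refine not_few fun hf => ?_
  exact (cls_sub (fun G => err G g) (ce F g j r) F hr (ce_mono F g j r)
    (fun t k => ce_appr F g hr t k) hβ ⟨hn, hf⟩) ht

end Pool.Agent.L0h20.TA
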